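import Pool.Agent.U36.TS.Stm3

/-!
# Project TSH, package RE: the relation of the tame quotient
-/

set_option autoImplicit false

namespace Pool.Agent.U36.TS

namespace RE438

variable {K B : Type} [Field K] [Field B] [Algebra K B]

/-- an automorphism which respects the valuation ring -/
structure Stab (V : ValuationSubring B) (s : B ≃ₐ[K] B) : Prop where
  one : ∀ x, V.valuation x = 1 → V.valuation (s x) = 1
  lt : ∀ x, V.valuation x < 1 → V.valuation (s x) < 1

theorem Stab.gt {V : ValuationSubring B} {s : B ≃ₐ[K] B} (h : Stab V s) (x : B)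
    (hx : 1 < V.valuation x) : 1 < V.valuation (s x) := by
  have hx0 : x ≠ 0 := by
    rintro rfl
    rw [map_zero] at hx
    exact absurd hx (not_lt.mpr zero_le_one)
  have h1 : V.valuation x⁻¹ < 1 := by
    rw [map_inv₀]
    exact inv_lt_one_of_one_lt₀ hx
  have h2 := h.lt _ h1
  rw [map_inv₀, map_inv₀] at h2
  have hs0 : V.valuation (s x) ≠ 0 := by
    rw [Valuation.ne_zero_iff]
    exact (map_ne_zero s).mpr hx0
  by_contra h3
  rw [not_lt] at h3
  have h4 : (1 : V.ValueGroup) ≤ (V.valuation (s x))⁻¹ := by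
    rw [one_le_inv₀ (zero_lt_iff.mpr hs0)]
    exact h3
  exact absurd h2 (not_lt.mpr h4)

theorem Stab.inv {V : ValuationSubring B} {s : B ≃ₐ[K] B} (h : Stab V s) : Stab V s⁻¹ := by
  have key : ∀ x, s (s⁻¹ x) = x := fun x => AlgEquiv.apply_symm_apply s x
  constructor
  · intro x hx
    rcases lt_trichotomy (V.valuation (s⁻¹ x)) 1 with h1 | h1 | h1
    · have := h.lt _ h1
      rw [key, hx] at this
      exact absurd this (lt_irrefl _)
    · exact h1
    · have := h.gt _ h1
      rw [key, hx] at this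
      exact absurd this (lt_irrefl _)
  · intro x hx
    rcases lt_trichotomy (V.valuation (s⁻¹ x)) 1 with h1 | h1 | h1
    · exact h1
    · have := h.one _ h1
      rw [key] at this
      rw [this] at hx
      exact absurd hx (lt_irrefl _)
    · have := h.gt _ h1
      rw [key] at this
      exact absurd hx (not_lt.mpr this.le)

theorem exists_pow_fix [Algebra.IsAlgebraic K B] (s : B ≃ₐ[K] B) (x : B) :
    ∃ n : ℕ, (s ^ (n + 1)) x = x := by
  have hfin : ((minpoly K x).rootSet B).Finite := Polynomial.rootSet_finite _ _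
  have hint : IsIntegral K x := (Algebra.IsAlgebraic.isAlgebraic x).isIntegral
  have hni : ¬ Function.Injective (fun n : ℕ => (s ^ n) x) := by
    intro hinj
    refine Set.infinite_range_of_injective hinj (hfin.subset ?_)
    rintro _ ⟨n, rfl⟩
    rw [Polynomial.mem_rootSet_of_ne (minpoly.ne_zero hint)]
    rw [Polynomial.aeval_algHom_apply, minpoly.aeval, map_zero]
  rw [Function.Injective] at hni
  push Not at hni
  obtain ⟨a, b, hab, hne⟩ := hni
  have main : ∀ i j : ℕ, i < j → (s ^ i) x = (s ^ j) x → ∃ n : ℕ, (s ^ (n + 1)) x = x := by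
    intro i j hij h
    obtain ⟨d, rfl⟩ := Nat.exists_eq_add_of_lt hij
    refine ⟨d, ?_⟩
    have e : i + d + 1 = i + (d + 1) := by ring
    rw [e, pow_add, AlgEquiv.mul_apply] at h
    exact ((s ^ i).injective h).symm
  rcases lt_or_gt_of_ne hne with h | h
  · exact main a b h hab
  · exact main b a h hab.symm

theorem not_lt_aux [Algebra.IsAlgebraic K B] {V : ValuationSubring B} {s : B ≃ₐ[K] B}
    (h : Stab V s) (x : B) (hx : x ≠ 0) : ¬ V.valuation (s x / x) < 1 := by
  intro hu
  have hs0 : s x ≠ 0 := (map_ne_zero s).mpr hx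
  have key : ∀ n : ℕ, V.valuation ((s ^ (n + 1)) x / x) < 1 := by
    intro n
    induction n with
    | zero => simpa using hu
    | succ n ih =>
      have e : (s ^ (n + 1 + 1)) x / x = s ((s ^ (n + 1)) x / x) * (s x / x) := by
        rw [map_div₀, pow_succ' s (n + 1), AlgEquiv.mul_apply]
        field_simp
      rw [e, map_mul]
      exact mul_lt_one_of_nonneg_of_lt_one_left zero_le (h.lt _ ih) hu.le
  obtain ⟨n, hn⟩ := exists_pow_fix s x
  have := key n
  rw [hn, div_self hx, map_one] at this
  exact lt_irrefl _ this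

theorem val_quot [Algebra.IsAlgebraic K B] {V : ValuationSubring B} {s : B ≃ₐ[K] B}
    (h : Stab V s) (x : B) (hx : x ≠ 0) : V.valuation (s x / x) = 1 := by
  have h1 := not_lt_aux h x hx
  have h2 := not_lt_aux h x⁻¹ (inv_ne_zero hx)
  have hs0 : s x ≠ 0 := (map_ne_zero s).mpr hx
  have e : s x⁻¹ / x⁻¹ = (s x / x)⁻¹ := by
    rw [map_inv₀]
    field_simp
  rw [e, map_inv₀] at h2
  rw [not_lt] at h1 h2
  refine le_antisymm ?_ h1
  have h3 : V.valuation (s x / x) ≠ 0 := by
    rw [Valuation.ne_zero_iff]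
    exact div_ne_zero hs0 hx
  rw [one_le_inv₀ (zero_lt_iff.mpr h3)] at h2
  exact h2

/-- congruence modulo the nonunits -/
def Cg (V : ValuationSubring B) (a b : B) : Prop := V.valuation (a - b) < 1

theorem Cg.refl (V : ValuationSubring B) (a : B) : Cg V a a := by
  rw [Cg, sub_self, map_zero]; exact zero_lt_one

theorem Cg.symm {V : ValuationSubring B} {a b : B} (h : Cg V a b) : Cg V b a := by
  rw [Cg, Valuation.map_sub_swap]; exact h

theorem Cg.trans {V : ValuationSubring B} {a b c : B} (h : Cg V a b) (h' : Cg V b c) :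
    Cg V a c := by
  have e : a - c = (a - b) + (b - c) := by ring
  rw [Cg, e]
  exact Valuation.map_add_lt _ h h'

theorem Cg.val_le {V : ValuationSubring B} {a b : B} (h : Cg V a b) (hb : V.valuation b ≤ 1) :
    V.valuation a ≤ 1 := by
  have e : a = (a - b) + b := by ring
  rw [e]
  exact Valuation.map_add_le _ h.le hb

theorem Cg.mul {V : ValuationSubring B} {a b c d : B} (h : Cg V a b) (h' : Cg V c d)
    (hb : V.valuation b ≤ 1) (hc : V.valuation c ≤ 1) : Cg V (a * c) (b * d) := by
  have e : a * c - b * d = (a - b) * c + b * (c - d) := by ring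
  rw [Cg, e]
  refine Valuation.map_add_lt _ ?_ ?_
  · rw [map_mul]
    exact mul_lt_one_of_nonneg_of_lt_one_left zero_le h hc
  · rw [map_mul]
    exact mul_lt_one_of_nonneg_of_lt_one_right hb zero_le h'

theorem Cg.pow {V : ValuationSubring B} {a b : B} (h : Cg V a b)
    (hb : V.valuation b ≤ 1) (n : ℕ) : Cg V (a ^ n) (b ^ n) := by
  induction n with
  | zero => simpa using Cg.refl V 1
  | succ n ih =>
    rw [pow_succ, pow_succ]
    refine ih.mul h ?_ (h.val_le hb)
    rw [map_pow]
    exact pow_le_one₀ zero_le hb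

theorem Cg.one_of {V : ValuationSubring B} {a b : B} (h : Cg V a b)
    (hb : V.valuation b = 1) : V.valuation a = 1 := by
  have e : a = b + (a - b) := by ring
  rw [e, Valuation.map_add_eq_of_lt_left]
  · exact hb
  · rw [hb]; exact h

theorem stab_inertia {V : ValuationSubring B} {t : B ≃ₐ[K] B} (ht : Inertia V t) : Stab V t := by
  have h0 : ∀ x, V.valuation x ≤ 1 → Cg V (t x) x := fun x hx =>
    (ValuationSubring.mem_nonunits_iff V).mp (ht x ((V.valuation_le_one_iff x).mp hx))
  constructor
  · intro x hx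
    exact (h0 x hx.le).one_of hx
  · intro x hx
    have e : t x = (t x - x) + x := by ring
    rw [e]
    exact Valuation.map_add_lt _ (h0 x hx.le) hx

theorem frob_pos {V : ValuationSubring B} {q : ℕ} {f : B ≃ₐ[K] B} (hf : Frob V q f) : q ≠ 0 := by
  rintro rfl
  have h := (ValuationSubring.mem_nonunits_iff V).mp (hf 0 V.zero_mem)
  rw [map_zero, pow_zero, zero_sub, Valuation.map_neg, map_one] at h
  exact lt_irrefl _ h

theorem stab_frob {V : ValuationSubring B} {q : ℕ} {f : B ≃ₐ[K] B} (hf : Frob V q f) :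
    Stab V f := by
  have h0 : ∀ x, V.valuation x ≤ 1 → Cg V (f x) (x ^ q) := fun x hx =>
    (ValuationSubring.mem_nonunits_iff V).mp (hf x ((V.valuation_le_one_iff x).mp hx))
  constructor
  · intro x hx
    refine (h0 x hx.le).one_of ?_
    rw [map_pow, hx, one_pow]
  · intro x hx
    have e : f x = (f x - x ^ q) + x ^ q := by ring
    rw [e]
    refine Valuation.map_add_lt _ (h0 x hx.le) ?_
    rw [map_pow]
    exact pow_lt_one₀ zero_le hx (frob_pos hf)

end RE438

open RE438 in
theorem t_RE : S_RE := by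
  intro K B _ _ _ _ _ V q t f ht hf
  have halg : Algebra.IsAlgebraic K B := IsAlgClosure.isAlgebraic
  have st := stab_inertia ht
  have sf := stab_frob hf
  have h0 : ∀ x, V.valuation x ≤ 1 → Cg V (t x) x := fun x hx =>
    (ValuationSubring.mem_nonunits_iff V).mp (ht x ((V.valuation_le_one_iff x).mp hx))
  have hf0 : ∀ x, V.valuation x ≤ 1 → Cg V (f x) (x ^ q) := fun x hx =>
    (ValuationSubring.mem_nonunits_iff V).mp (hf x ((V.valuation_le_one_iff x).mp hx))
  -- (3) the conjugate
  have h3 : ∀ x : B, x ≠ 0 → Cg V ((f * t * f⁻¹) x / x) ((t x / x) ^ q) := by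
    intro x hx
    have hu := val_quot st x hx
    set w := f⁻¹ x with hw
    have hfw : f w = x := AlgEquiv.apply_symm_apply f x
    have hw0 : w ≠ 0 := by
      intro h
      rw [h, map_zero] at hfw
      exact hx hfw.symm
    have htx0 : t x ≠ 0 := (map_ne_zero t).mpr hx
    have htw0 : t w ≠ 0 := (map_ne_zero t).mpr hw0
    have hwx : V.valuation (w / x) = 1 := val_quot sf.inv x hx
    have e1 : (f * t * f⁻¹) x / x = f (t w / w) := by
      rw [map_div₀, hfw, AlgEquiv.mul_apply, AlgEquiv.mul_apply]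
    -- `t w / w` is congruent to `t x / x`
    have e2 : t w / w = (t x / x) * (t (w / x) * (w / x)⁻¹) := by
      rw [map_div₀]
      field_simp
    have hwxi : V.valuation (w / x)⁻¹ = 1 := by rw [map_inv₀, hwx, inv_one]
    have hwx0 : w / x ≠ 0 := div_ne_zero hw0 hx
    have c1 : Cg V (t (w / x) * (w / x)⁻¹) 1 := by
      have := (h0 (w / x) hwx.le).mul (Cg.refl V (w / x)⁻¹) hwx.le hwxi.le
      rwa [mul_inv_cancel₀ hwx0] at this
    have c2 : Cg V (t w / w) (t x / x) := by
      rw [e2]
      have := (Cg.refl V (t x / x)).mul c1 hu.le (c1.val_le (by rw [map_one]))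
      rwa [mul_one] at this
    rw [e1]
    exact (hf0 _ (c2.val_le hu.le)).trans (c2.pow hu.le q)
  -- (4) the power
  have h4 : ∀ (n : ℕ) (x : B), x ≠ 0 → Cg V ((t ^ n) x / x) ((t x / x) ^ n) := by
    intro n x hx
    have hu := val_quot st x hx
    have htx0 : t x ≠ 0 := (map_ne_zero t).mpr hx
    induction n with
    | zero => simpa [div_self hx] using Cg.refl V 1
    | succ n ih =>
      have e : (t ^ (n + 1)) x / x = t ((t ^ n) x / x) * (t x / x) := by
        rw [map_div₀, pow_succ' t n, AlgEquiv.mul_apply]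
        field_simp
      have hp : V.valuation ((t x / x) ^ n) = 1 := by rw [map_pow, hu, one_pow]
      rw [e, pow_succ]
      have c1 : Cg V (t ((t ^ n) x / x)) ((t x / x) ^ n) :=
        (h0 _ (ih.val_le hp.le)).trans ih
      exact c1.mul (Cg.refl V _) hp.le hu.le
  intro x hx
  rw [ValuationSubring.mem_nonunits_iff]
  set y := ((t ^ q)⁻¹ : B ≃ₐ[K] B) x with hy
  have hty : (t ^ q) y = x := AlgEquiv.apply_symm_apply (t ^ q) x
  have hy0 : y ≠ 0 := by
    intro h
    rw [h, map_zero] at hty
    exact hx hty.symm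
  have hgx : (f * t * f⁻¹ * (t ^ q)⁻¹) x = (f * t * f⁻¹) y := by
    rw [AlgEquiv.mul_apply (f * t * f⁻¹)]
  have hu := val_quot st y hy0
  have hp : V.valuation ((t y / y) ^ q) = 1 := by rw [map_pow, hu, one_pow]
  have c1 := h3 y hy0
  have c2 := h4 q y hy0
  have c3 : Cg V ((f * t * f⁻¹) y / y) ((t ^ q) y / y) := c1.trans c2.symm
  have hv : V.valuation ((t ^ q) y / y) = 1 := c2.one_of hp
  have e : (f * t * f⁻¹ * (t ^ q)⁻¹) x / x - 1 =
      ((f * t * f⁻¹) y / y - (t ^ q) y / y) / ((t ^ q) y / y) := by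
    rw [hgx, hty]
    field_simp
  rw [e, map_div₀, hv, div_one]
  exact c3

end Pool.Agent.U36.TS
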