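import Pool.Agent.U36.TS.Stm2

/-!
# Project TSH, package PT: powers of `T`
-/

set_option autoImplicit false

namespace Pool.Agent.U438.TS

open Pool.Agent.U36.TS

theorem pow_fix {M : Type} [Field M] (T : M ≃+* M) (x : M) (h : T x = x) (n : ℕ) :
    (T ^ n) x = x := by
  induction n with
  | zero => rfl
  | succ n ih => rw [pow_succ, RingAut.mul_apply, h, ih]

theorem t_PT : S_PT := by
  intro M _ l q th T Ph U h n
  refine ⟨h.prime, h.two, h.prim, h.comp, fun m => pow_fix T _ (h.T_fix m) n, h.Ph_pow, ?_,
    h.ne_zero, h.mul, h.inv, ?_, h.root, h.of_pow, h.one_sub, ?_⟩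
  · intro x
    rw [← pow_mul]
    induction n generalizing x with
    | zero => simp
    | succ n ih =>
      rw [pow_succ, RingAut.mul_apply, ih (T x), h.rel, ← RingAut.mul_apply, ← pow_add]
      congr 2
      ring
  · intro x hx
    induction n generalizing x with
    | zero => simpa using hx
    | succ n ih =>
      rw [pow_succ, RingAut.mul_apply]
      exact ih (T x) (h.T_mem x hx)
  · intro m i hi
    obtain ⟨h1, h2⟩ := h.const m i hi
    exact ⟨h1, fun k y hy => pow_fix T y (h2 k y hy) n⟩

end Pool.Agent.U438.TS
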